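import Pool.Agent.KS6_34.CE.FourFifth

/-!
# The bound `‖p(A)‖ ≤ c(q) sup_{Ω_q} |p|` and all its equality cases
-/

set_option autoImplicit false

open Polynomial

namespace Pool.Agent.Results.MP_16d611_an.EqualityCases

open Pool.Agent.KS6_34.CE (Chain wgt case_one case_q case_small case_45 vanish chain_lower numRange_le)
open Pool.Agent.W753.CZ (numRange)

/-- The operator on `ℂⁿ` with the Euclidean norm given by the matrix `A`. -/
noncomputable def op {n : ℕ} (A : Matrix (Fin n) (Fin n) ℂ) :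
    EuclideanSpace ℂ (Fin n) →L[ℂ] EuclideanSpace ℂ (Fin n) :=
  Matrix.toEuclideanCLM (n := Fin n) (𝕜 := ℂ) A

/-- The scaled `q`-numerical range
`Ω_q(A) = {⟨Ax, y⟩ / q : ‖x‖ = ‖y‖ = 1, ⟨x, y⟩ = q}`. Mathlib's inner product is linear in the second
argument, so the number `⟨u, v⟩` of the problem file is `inner ℂ v u`. -/
def Om {n : ℕ} (q : ℂ) (A : Matrix (Fin n) (Fin n) ℂ) : Set ℂ :=
  {z : ℂ | ∃ x y : EuclideanSpace ℂ (Fin n),
    ‖x‖ = 1 ∧ ‖y‖ = 1 ∧ inner ℂ y x = q ∧ z = inner ℂ y (op A x) / q}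

/-- `sup {|p(z)| : z ∈ Ω_q(A)}` (a real supremum; the set is bounded). -/
noncomputable def supOn {n : ℕ} (q : ℂ) (A : Matrix (Fin n) (Fin n) ℂ) (p : ℂ[X]) : ℝ :=
  sSup ((fun z : ℂ => ‖p.eval z‖) '' Om q A)

/-- `c(q) = max(1, 2|q| / (1 + √(1 - |q|²)))`. -/
noncomputable def c (q : ℂ) : ℝ := max 1 (2 * ‖q‖ / (1 + √(1 - ‖q‖ ^ 2)))

/-- The weights of the Crabb matrix: the single weight `κ` for `D = 1`, and `√2, 1, …, 1, √2`
(`D` weights) for `D ≥ 2`. -/
noncomputable def weight (κ : ℝ) (D j : ℕ) : ℝ :=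
  if D = 1 then κ else if j = 0 ∨ j + 1 = D then √2 else 1

/-- The `(D + 1) × (D + 1)` matrix with the entries `weight κ D 0, …, weight κ D (D - 1)` just below the
diagonal and zeros elsewhere. -/
noncomputable def Crabb (κ : ℝ) (D : ℕ) : Matrix (Fin (D + 1)) (Fin (D + 1)) ℂ :=
  fun i j => if (i : ℕ) = (j : ℕ) + 1 then ((weight κ D j : ℝ) : ℂ) else 0

/-- `A` is unitarily equivalent to a matrix having `B` as a direct summand: there is an isometry `V` with
`A V = V B` and `A* V = V B*`. -/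
def HasSummand {n m : ℕ} (A : Matrix (Fin n) (Fin n) ℂ) (B : Matrix (Fin m) (Fin m) ℂ) : Prop :=
  ∃ V : Matrix (Fin n) (Fin m) ℂ,
    V.conjTranspose * V = 1 ∧ A * V = V * B ∧ A.conjTranspose * V = V * B.conjTranspose

/-! ### The bound -/

theorem op_aeval {n : ℕ} (A : Matrix (Fin n) (Fin n) ℂ) (p : ℂ[X]) :
    op (aeval A p) = aeval (op A) p :=
  (Polynomial.aeval_algHom_apply
    ((Matrix.toEuclideanCLM (n := Fin n) (𝕜 := ℂ)).toAlgEquiv.toAlgHom) A p).symm

theorem Om_eq {n : ℕ} (q : ℂ) (A : Matrix (Fin n) (Fin n) ℂ) : Om q A = Pool.Agent.X24.QN.Om q (op A) := rfl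

theorem op_apply {n : ℕ} (A : Matrix (Fin n) (Fin n) ℂ) (x : EuclideanSpace ℂ (Fin n)) (i : Fin n) :
    (op A x) i = ∑ k, A i k * x k := by
  unfold op
  rw [Matrix.ofLp_toEuclideanCLM]
  rfl

theorem op_star {n : ℕ} (A : Matrix (Fin n) (Fin n) ℂ) : op A.conjTranspose = star (op A) :=
  map_star (Matrix.toEuclideanCLM (n := Fin n) (𝕜 := ℂ)) A

theorem bddAbove {n : ℕ} {q : ℂ} (A : Matrix (Fin n) (Fin n) ℂ) (p : ℂ[X]) :
    BddAbove ((fun z : ℂ => ‖p.eval z‖) '' Om q A) := by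
  have hsub : Om q A ⊆ Metric.closedBall 0 (‖op A‖ / ‖q‖) := by
    rintro z ⟨x, y, hx, hy, -, rfl⟩
    rw [mem_closedBall_zero_iff, norm_div]
    apply div_le_div_of_nonneg_right _ (norm_nonneg _)
    calc ‖inner ℂ y (op A x)‖ ≤ ‖y‖ * ‖op A x‖ := norm_inner_le_norm _ _
      _ ≤ ‖y‖ * (‖op A‖ * ‖x‖) := by gcongr; exact (op A).le_opNorm x
      _ = ‖op A‖ := by rw [hx, hy]; ring
  have hc : IsCompact ((fun z : ℂ => ‖p.eval z‖) '' Metric.closedBall 0 (‖op A‖ / ‖q‖)) :=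
    (isCompact_closedBall _ _).image (by fun_prop)
  exact hc.bddAbove.mono (Set.image_mono hsub)

theorem exists_orth {n : ℕ} (hn : 2 ≤ n) (x : EuclideanSpace ℂ (Fin n)) (hx : ‖x‖ = 1) :
    ∃ v : EuclideanSpace ℂ (Fin n), ‖v‖ = 1 ∧ inner ℂ x v = (0 : ℂ) := by
  have hx0 : x ≠ 0 := by
    rintro rfl
    rw [norm_zero] at hx
    exact zero_ne_one hx
  have h := Submodule.finrank_add_finrank_orthogonal (𝕜 := ℂ) (ℂ ∙ x)
  rw [finrank_span_singleton hx0, finrank_euclideanSpace, Fintype.card_fin] at h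
  have hpos : 0 < Module.finrank ℂ (ℂ ∙ x)ᗮ := by omega
  have : Nontrivial (ℂ ∙ x)ᗮ := Module.nontrivial_of_finrank_pos hpos
  obtain ⟨⟨v, hv⟩, hv0⟩ := exists_ne (0 : (ℂ ∙ x)ᗮ)
  have hv1 : v ≠ 0 := fun h => hv0 (Subtype.ext h)
  have hvi : inner ℂ x v = (0 : ℂ) := Submodule.mem_orthogonal_singleton_iff_inner_right.mp hv
  refine ⟨((‖v‖⁻¹ : ℝ) : ℂ) • v, ?_, ?_⟩
  · rw [norm_smul, Complex.norm_real, norm_inv, norm_norm, inv_mul_cancel₀ (norm_ne_zero_iff.mpr hv1)]
  · rw [inner_smul_right, hvi, mul_zero]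

theorem nontriv {n : ℕ} (hn : 0 < n) : Nontrivial (EuclideanSpace ℂ (Fin n)) := by
  apply Module.nontrivial_of_finrank_pos (R := ℂ)
  rw [finrank_euclideanSpace, Fintype.card_fin]
  exact hn

theorem exists_unit {n : ℕ} (hn : 0 < n) : ∃ x : EuclideanSpace ℂ (Fin n), ‖x‖ = 1 :=
  ⟨EuclideanSpace.single ⟨0, hn⟩ 1, by simp⟩

theorem nonempty_iff {n : ℕ} (A : Matrix (Fin n) (Fin n) ℂ) {q : ℂ} (hq0 : 0 < ‖q‖) (hq1 : ‖q‖ ≤ 1) :
    (Om q A).Nonempty ↔ 2 ≤ n ∨ (n = 1 ∧ ‖q‖ = 1) := by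
  have hq : q ≠ 0 := norm_pos_iff.mp hq0
  constructor
  · rintro ⟨z, x, y, hx, hy, hxy, -⟩
    rcases Nat.lt_or_ge 1 n with h | h
    · exact Or.inl h
    · right
      interval_cases n
      · exfalso
        rw [Subsingleton.elim x 0, norm_zero] at hx
        exact zero_ne_one hx
      · refine ⟨rfl, ?_⟩
        have h1 : ‖x‖ = ‖x 0‖ := by rw [EuclideanSpace.norm_eq]; simp
        have h2 : ‖y‖ = ‖y 0‖ := by rw [EuclideanSpace.norm_eq]; simp
        rw [← hxy]
        simp [PiLp.inner_apply, ← h1, ← h2, hx, hy]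
  · rintro (h | ⟨rfl, h⟩)
    · obtain ⟨x, hx⟩ := exists_unit (n := n) (by omega)
      obtain ⟨v, hv1, hv2⟩ := exists_orth h x hx
      exact ⟨_, Pool.Agent.X24.QN.mem_circle hq hq1 (op A) hx hv1 hv2 1 norm_one⟩
    · obtain ⟨x, hx⟩ := exists_unit (n := 1) one_pos
      refine ⟨_, x, (starRingEnd ℂ) q • x, hx, ?_, ?_, rfl⟩
      · rw [norm_smul, RCLike.norm_conj, h, hx, mul_one]
      · rw [inner_smul_left, Complex.conj_conj, Pool.Agent.X24.QN.inner_self_one hx, mul_one]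

/-- for `|q| = 1` the numerical range lies in `Ω_q` -/
theorem numRange_sub {n : ℕ} (A : Matrix (Fin n) (Fin n) ℂ) {q : ℂ} (hq : ‖q‖ = 1) :
    numRange (op A) ⊆ Om q A := by
  have hq0 : q ≠ 0 := by
    rintro rfl
    rw [norm_zero] at hq
    exact zero_ne_one hq
  rintro w ⟨x, hx, rfl⟩
  refine ⟨x, (starRingEnd ℂ) q • x, hx, ?_, ?_, ?_⟩
  · rw [norm_smul, RCLike.norm_conj, hq, hx, mul_one]
  · rw [inner_smul_left, Complex.conj_conj, Pool.Agent.X24.QN.inner_self_one hx, mul_one]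
  · rw [inner_smul_left, Complex.conj_conj, mul_div_cancel_left₀ _ hq0]

/-- polynomial bounds pass to the numerical range -/
theorem numRange_bd {n : ℕ} (A : Matrix (Fin n) (Fin n) ℂ) {q : ℂ} (hq0 : 0 < ‖q‖) (hq1 : ‖q‖ ≤ 1)
    (hn : 2 ≤ n ∨ (n = 1 ∧ ‖q‖ = 1)) (p : ℂ[X]) (M : ℝ) (hp : ∀ z ∈ Om q A, ‖p.eval z‖ ≤ M) :
    ∀ w ∈ numRange (op A), ‖p.eval w‖ ≤ M := by
  rcases hn with h | ⟨rfl, h⟩
  · exact numRange_le (norm_pos_iff.mp hq0) hq1 (op A) (exists_orth h) p M hp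
  · exact fun w hw => hp w (numRange_sub A h hw)

theorem bound_one {n : ℕ} (A : Matrix (Fin n) (Fin n) ℂ) {q : ℂ} (hq0 : 0 < ‖q‖) (hq1 : ‖q‖ ≤ 1)
    (hn : 2 ≤ n ∨ (n = 1 ∧ ‖q‖ = 1)) (p : ℂ[X]) (hp : ∀ z ∈ Om q A, ‖p.eval z‖ ≤ 1) :
    ‖op (aeval A p)‖ ≤ c q := by
  have hq : q ≠ 0 := norm_pos_iff.mp hq0
  have hnr := numRange_bd A hq0 hq1 hn p 1 hp
  rw [op_aeval, c]
  rcases hn with h | ⟨rfl, h⟩
  · have := nontriv (n := n) (by omega)
    have h1 := Pool.Agent.X24.QN.main_le hq hq1 (op A) (exists_orth h) p hp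
    rwa [← mul_div_assoc] at h1
  · have := nontriv (n := 1) one_pos
    have h1 : ‖aeval (op A) p‖ ≤ 2 * 1 := Pool.Agent.W753.CZ.crouzeix_bound (op A) p 1 hnr
    rw [h]
    simp only [one_pow, sub_self, Real.sqrt_zero, add_zero, mul_one, div_one] at h1 ⊢
    exact h1.trans (le_max_right _ _)

theorem c_ge (q : ℂ) : 1 ≤ c q := le_max_left _ _

theorem bound {n : ℕ} (A : Matrix (Fin n) (Fin n) ℂ) {q : ℂ} (hq0 : 0 < ‖q‖) (hq1 : ‖q‖ ≤ 1)
    (hn : 2 ≤ n ∨ (n = 1 ∧ ‖q‖ = 1)) (p : ℂ[X]) :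
    ‖op (aeval A p)‖ ≤ c q * supOn q A p := by
  have hne : (Om q A).Nonempty := (nonempty_iff A hq0 hq1).mpr hn
  have hM : ∀ z ∈ Om q A, ‖p.eval z‖ ≤ supOn q A p := fun z hz =>
    le_csSup (bddAbove A p) (Set.mem_image_of_mem _ hz)
  have hM0 : 0 ≤ supOn q A p := by
    obtain ⟨z, hz⟩ := hne
    exact (norm_nonneg _).trans (hM z hz)
  have hc : 0 ≤ c q := zero_le_one.trans (le_max_left _ _)
  generalize supOn q A p = M at hM hM0 ⊢
  -- the scaled polynomial
  have key : ∀ N : ℝ, M < N → ‖op (aeval A p)‖ ≤ c q * N := by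
    intro N hN
    have hN0 : 0 < N := lt_of_le_of_lt hM0 hN
    have h1 := bound_one A hq0 hq1 hn (C ((N : ℂ)⁻¹) * p) (by
      intro z hz
      rw [eval_mul, eval_C, norm_mul, norm_inv, Complex.norm_real, Real.norm_of_nonneg hN0.le,
        inv_mul_le_iff₀ hN0, mul_one]
      exact (hM z hz).trans hN.le)
    rw [op_aeval, map_mul, aeval_C, Algebra.algebraMap_eq_smul_one, smul_one_mul, norm_smul, norm_inv,
      Complex.norm_real, Real.norm_of_nonneg hN0.le, inv_mul_le_iff₀ hN0, mul_comm, ← op_aeval] at h1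
    exact h1
  refine le_of_forall_pos_le_add fun ε hε => ?_
  have hc1 : 0 < c q + 1 := by linarith
  have h1 := key (M + ε / (c q + 1)) (by linarith [div_pos hε hc1])
  have h2 : c q * (ε / (c q + 1)) ≤ ε := by
    rw [mul_div_assoc', div_le_iff₀ hc1]
    nlinarith
  linarith

/-! ### The value of `c(q)` -/

theorem c_one {q : ℂ} (hq : ‖q‖ = 1) : c q = 2 := by
  unfold c
  rw [hq]
  norm_num

theorem c_large {q : ℂ} (hq : 4 / 5 < ‖q‖) (hq1 : ‖q‖ ≤ 1) :
    1 < c q ∧ c q = 2 * (‖q‖ / (1 + √(1 - ‖q‖ ^ 2))) := by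
  have h1 : √(1 - ‖q‖ ^ 2) < 3 / 5 := by
    rw [show (3 : ℝ) / 5 = √((3 / 5) ^ 2) by rw [Real.sqrt_sq (by norm_num)]]
    apply Real.sqrt_lt_sqrt
    · nlinarith
    · nlinarith
  have h2 : 1 < 2 * ‖q‖ / (1 + √(1 - ‖q‖ ^ 2)) := by
    rw [lt_div_iff₀ (by positivity)]
    linarith
  refine ⟨h2.trans_le (le_max_right _ _), ?_⟩
  unfold c
  rw [max_eq_right h2.le, mul_div_assoc]

theorem c_small {q : ℂ} (hq : ‖q‖ ≤ 4 / 5) : c q = 1 := by
  have h1 : 3 / 5 ≤ √(1 - ‖q‖ ^ 2) := by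
    apply Real.le_sqrt_of_sq_le
    nlinarith [norm_nonneg q]
  have h2 : 2 * ‖q‖ / (1 + √(1 - ‖q‖ ^ 2)) ≤ 1 := by
    rw [div_le_one (by positivity)]
    linarith
  unfold c
  exact max_eq_left h2

/-! ### From chains to summands and back -/

theorem sum_up {D : ℕ} (f : Fin (D + 1) → ℂ) (w : ℂ) (j : Fin (D + 1)) (hj : (j : ℕ) < D) :
    ∑ l : Fin (D + 1), f l * (if (l : ℕ) = (j : ℕ) + 1 then w else 0) = f ⟨j + 1, by omega⟩ * w := by
  rw [Finset.sum_eq_single ⟨(j : ℕ) + 1, by omega⟩]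
  · rw [if_pos rfl]
  · intro l _ hl
    rw [if_neg, mul_zero]
    intro h
    exact hl (Fin.ext h)
  · intro h
    exact absurd (Finset.mem_univ _) h

theorem chain_summand {n : ℕ} (A : Matrix (Fin n) (Fin n) ℂ) {a : ℂ} {r κ : ℝ} (hr : 0 < r) (hκ : 0 < κ) {D : ℕ}
    {v : ℕ → EuclideanSpace ℂ (Fin n)} (h : Chain (op A) a r D (wgt κ D) v) :
    HasSummand A (a • 1 + (r : ℂ) • Crabb κ D) := by
  have hW : ∀ j < D, wgt κ D j ≠ 0 := by
    intro j _
    unfold wgt
    split_ifs <;> positivity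
  have hon := h.orthonormal hr hW
  obtain ⟨V, hVe⟩ : ∃ V : Matrix (Fin n) (Fin (D + 1)) ℂ, ∀ i j, V i j = (v j) i :=
    ⟨Matrix.of fun i j => (v j) i, fun _ _ => rfl⟩
  refine ⟨V, ?_, ?_, ?_⟩
  · ext i j
    have h1 := (orthonormal_iff_ite.mp hon) i j
    rw [Matrix.mul_apply, Matrix.one_apply, ← h1, PiLp.inner_apply]
    refine Finset.sum_congr rfl fun k _ => ?_
    rw [Matrix.conjTranspose_apply, RCLike.inner_apply, mul_comm, hVe, hVe]
    rfl
  · ext i j
    have h1 : (A * V) i j = (op A (v j)) i := by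
      rw [Matrix.mul_apply, op_apply]
      exact Finset.sum_congr rfl fun k _ => by rw [hVe]
    rw [h1, Matrix.mul_apply]
    have h2 : ∀ l : Fin (D + 1), V i l * (a • (1 : Matrix (Fin (D + 1)) (Fin (D + 1)) ℂ) + (r : ℂ) • Crabb κ D) l j =
        a * ((v l) i * (if l = j then 1 else 0)) +
          (v l) i * (if (l : ℕ) = (j : ℕ) + 1 then ((r * wgt κ D j : ℝ) : ℂ) else 0) := by
      intro l
      rw [hVe, Matrix.add_apply, Matrix.smul_apply, Matrix.smul_apply, Matrix.one_apply, smul_eq_mul, smul_eq_mul]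
      unfold Crabb
      have h3 : weight κ D j = wgt κ D j := rfl
      rw [h3]
      split_ifs <;> push_cast <;> ring
    rw [Finset.sum_congr rfl (fun l _ => h2 l), Finset.sum_add_distrib, ← Finset.mul_sum]
    have h4 : ∑ l : Fin (D + 1), (v l) i * (if l = j then (1 : ℂ) else 0) = (v j) i := by
      rw [Finset.sum_eq_single j]
      · rw [if_pos rfl, mul_one]
      · intro l _ hl
        rw [if_neg hl, mul_zero]
      · intro h; exact absurd (Finset.mem_univ _) h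
    rw [h4]
    rcases Nat.lt_or_ge (j : ℕ) D with hj | hj
    · rw [sum_up (fun l => (v l) i) _ j hj, h.up j hj]
      simp only [PiLp.add_apply, PiLp.smul_apply, smul_eq_mul]
      ring
    · have hjD : (j : ℕ) = D := by omega
      have h5 : ∑ l : Fin (D + 1), (v l) i * (if (l : ℕ) = (j : ℕ) + 1 then ((r * wgt κ D j : ℝ) : ℂ) else 0) = 0 := by
        apply Finset.sum_eq_zero
        intro l _
        rw [if_neg (by omega), mul_zero]
      rw [h5, hjD, h.top]
      simp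
  · ext i j
    have h1 : (A.conjTranspose * V) i j = (star (op A) (v j)) i := by
      rw [Matrix.mul_apply, ← op_star, op_apply]
      exact Finset.sum_congr rfl fun k _ => by rw [hVe]
    rw [h1, Matrix.mul_apply]
    have h2 : ∀ l : Fin (D + 1), V i l *
        (a • (1 : Matrix (Fin (D + 1)) (Fin (D + 1)) ℂ) + (r : ℂ) • Crabb κ D).conjTranspose l j =
        (starRingEnd ℂ) a * ((v l) i * (if l = j then 1 else 0)) +
          (v l) i * (if (j : ℕ) = (l : ℕ) + 1 then ((r * wgt κ D l : ℝ) : ℂ) else 0) := by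
      intro l
      rw [hVe, Matrix.conjTranspose_apply, Matrix.add_apply, Matrix.smul_apply, Matrix.smul_apply, Matrix.one_apply,
        smul_eq_mul, smul_eq_mul]
      unfold Crabb
      have h3 : weight κ D l = wgt κ D l := rfl
      rw [h3]
      by_cases e1 : l = j
      · subst e1
        have e3 : ¬ ((l : ℕ) = (l : ℕ) + 1) := by omega
        rw [if_pos rfl]
        simp only [if_neg e3]
        simp [mul_comm]
      · rw [if_neg (fun h => e1 h.symm), if_neg e1]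
        split_ifs with e2
        · simp [Complex.conj_ofReal]
        · simp
    rw [Finset.sum_congr rfl (fun l _ => h2 l), Finset.sum_add_distrib, ← Finset.mul_sum]
    have h4 : ∑ l : Fin (D + 1), (v l) i * (if l = j then (1 : ℂ) else 0) = (v j) i := by
      rw [Finset.sum_eq_single j]
      · rw [if_pos rfl, mul_one]
      · intro l _ hl
        rw [if_neg hl, mul_zero]
      · intro h; exact absurd (Finset.mem_univ _) h
    rw [h4]
    rcases Nat.eq_zero_or_pos (j : ℕ) with hj | hj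
    · have h5 : ∑ l : Fin (D + 1), (v l) i * (if (j : ℕ) = (l : ℕ) + 1 then ((r * wgt κ D l : ℝ) : ℂ) else 0) = 0 := by
        apply Finset.sum_eq_zero
        intro l _
        rw [if_neg (by omega), mul_zero]
      rw [h5, hj, h.bot]
      simp
    · obtain ⟨k, hk⟩ : ∃ k, (j : ℕ) = k + 1 := ⟨(j : ℕ) - 1, by omega⟩
      have hkD : k < D := by omega
      have h5 : ∑ l : Fin (D + 1), (v l) i * (if (j : ℕ) = (l : ℕ) + 1 then ((r * wgt κ D l : ℝ) : ℂ) else 0) =
          (v k) i * ((r * wgt κ D k : ℝ) : ℂ) := by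
        rw [Finset.sum_eq_single ⟨k, by omega⟩]
        · rw [if_pos hk]
        · intro l _ hl
          rw [if_neg, mul_zero]
          intro h6
          apply hl
          apply Fin.ext
          change (l : ℕ) = k
          omega
        · intro h; exact absurd (Finset.mem_univ _) h
      rw [h5, hk, h.dn k hkD]
      simp only [PiLp.add_apply, PiLp.smul_apply, smul_eq_mul]
      ring

/-- a summand gives a lower bound for the norm -/
theorem summand_lower {n : ℕ} (A : Matrix (Fin n) (Fin n) ℂ) {a γ : ℂ} {r κ : ℝ} (hr : 0 < r) (hκ : 0 ≤ κ) {D : ℕ}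
    (hD : 1 ≤ D) (h : HasSummand A (a • 1 + (r : ℂ) • Crabb κ D)) (p : ℂ[X]) (hp : p = C γ * (X - C a) ^ D) :
    ‖γ‖ * r ^ D * (if D = 1 then κ else 2) ≤ ‖op (aeval A p)‖ := by
  obtain ⟨V, hV, hAV, -⟩ := h
  rw [op_aeval]
  set v : ℕ → EuclideanSpace ℂ (Fin n) := fun j => if hj : j < D + 1 then WithLp.toLp 2 (fun i => V i ⟨j, hj⟩) else 0
    with hv
  have hvj : ∀ (j : ℕ) (hj : j < D + 1) (i : Fin n), (v j) i = V i ⟨j, hj⟩ := by
    intro j hj i
    rw [hv]
    simp only [dif_pos hj]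
  have hn : ∀ j < D + 1, ‖v j‖ = 1 := by
    intro j hj
    have h1 : (V.conjTranspose * V) ⟨j, hj⟩ ⟨j, hj⟩ = 1 := by rw [hV, Matrix.one_apply_eq]
    rw [Matrix.mul_apply] at h1
    have h2 : inner ℂ (v j) (v j) = (1 : ℂ) := by
      rw [← h1, PiLp.inner_apply]
      refine Finset.sum_congr rfl fun k _ => ?_
      rw [Matrix.conjTranspose_apply, RCLike.inner_apply, hvj j hj, mul_comm]
      rfl
    have h5 : ((‖v j‖ ^ 2 : ℝ) : ℂ) = 1 := by
      rw [← h2, inner_self_eq_norm_sq_to_K]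
      push_cast
      rfl
    have h3 : ‖v j‖ ^ 2 = 1 := by exact_mod_cast h5
    have h4 := norm_nonneg (v j)
    nlinarith
  refine chain_lower (op A) a γ r κ hr hκ D hD v (hn 0 (by omega)) (hn D (by omega)) ?_ p hp
  intro j hj
  ext i
  have h1 : (A * V) i ⟨j, by omega⟩ = (op A (v j)) i := by
    rw [Matrix.mul_apply, op_apply]
    refine Finset.sum_congr rfl fun k _ => ?_
    rw [hvj j (by omega)]
  rw [← h1, hAV, Matrix.mul_apply]
  have h2 : ∀ l : Fin (D + 1), V i l * (a • (1 : Matrix (Fin (D + 1)) (Fin (D + 1)) ℂ) + (r : ℂ) • Crabb κ D) l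
      ⟨j, by omega⟩ = a * (V i l * (if l = ⟨j, by omega⟩ then 1 else 0)) +
        V i l * (if (l : ℕ) = ((⟨j, by omega⟩ : Fin (D + 1)) : ℕ) + 1 then ((r * wgt κ D j : ℝ) : ℂ) else 0) := by
    intro l
    rw [Matrix.add_apply, Matrix.smul_apply, Matrix.smul_apply, Matrix.one_apply, smul_eq_mul, smul_eq_mul]
    unfold Crabb
    have h3 : weight κ D j = wgt κ D j := rfl
    simp only [h3]
    split_ifs <;> push_cast <;> ring
  rw [Finset.sum_congr rfl (fun l _ => h2 l), Finset.sum_add_distrib, ← Finset.mul_sum]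
  have h4 : ∑ l : Fin (D + 1), V i l * (if l = ⟨j, by omega⟩ then (1 : ℂ) else 0) = V i ⟨j, by omega⟩ := by
    rw [Finset.sum_eq_single (⟨j, by omega⟩ : Fin (D + 1))]
    · rw [if_pos rfl, mul_one]
    · intro l _ hl
      rw [if_neg hl, mul_zero]
    · intro h; exact absurd (Finset.mem_univ _) h
  rw [h4, sum_up (fun l => V i l) _ ⟨j, by omega⟩ hj]
  simp only [PiLp.add_apply, PiLp.smul_apply, smul_eq_mul]
  rw [hvj j (by omega), hvj (j + 1) (by omega)]
  ring

/-! ### The degenerate cases -/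

theorem sup_eq_zero {n : ℕ} (A : Matrix (Fin n) (Fin n) ℂ) {q : ℂ} (hne : (Om q A).Nonempty) (p : ℂ[X]) :
    supOn q A p = 0 ↔ ∀ z ∈ Om q A, p.eval z = 0 := by
  constructor
  · intro h z hz
    have h1 : ‖p.eval z‖ ≤ supOn q A p := le_csSup (bddAbove A p) (Set.mem_image_of_mem _ hz)
    rw [h] at h1
    exact norm_le_zero_iff.mp h1
  · intro h
    have h1 : (fun z : ℂ => ‖p.eval z‖) '' Om q A = {0} := by
      obtain ⟨z0, hz0⟩ := hne
      ext t
      simp only [Set.mem_image, Set.mem_singleton_iff]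
      constructor
      · rintro ⟨z, hz, rfl⟩
        rw [h z hz, norm_zero]
      · rintro rfl
        exact ⟨z0, hz0, by rw [h z0 hz0, norm_zero]⟩
    rw [supOn, h1, csSup_singleton]

theorem op_smul_one {n : ℕ} (a : ℂ) : op (a • (1 : Matrix (Fin n) (Fin n) ℂ)) = a • 1 := by
  unfold op
  rw [map_smul, map_one]

theorem op_inj {n : ℕ} {A B : Matrix (Fin n) (Fin n) ℂ} (h : op A = op B) : A = B :=
  (Matrix.toEuclideanCLM (n := Fin n) (𝕜 := ℂ)).injective h

theorem scalar_iff {n : ℕ} (A : Matrix (Fin n) (Fin n) ℂ) (a : ℂ) : op A = a • 1 ↔ A = a • 1 := by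
  constructor
  · intro h
    apply op_inj
    rw [h, op_smul_one]
  · rintro rfl
    exact op_smul_one a

/-- the scaled range of a scalar matrix -/
theorem Om_scalar {n : ℕ} (a : ℂ) {q : ℂ} (hq0 : 0 < ‖q‖) :
    ∀ z ∈ Om q (a • (1 : Matrix (Fin n) (Fin n) ℂ)), z = a := by
  have hq : q ≠ 0 := norm_pos_iff.mp hq0
  rintro z ⟨x, y, -, -, hxy, rfl⟩
  rw [op_smul_one, _root_.smul_apply, one_apply_eq_self, inner_smul_right, hxy, mul_div_cancel_right₀ _ hq]

/-- constants and scalar matrices give equality when `c(q) = 1` -/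
theorem trivial_eq {n : ℕ} (A : Matrix (Fin n) (Fin n) ℂ) {q : ℂ} (hq0 : 0 < ‖q‖) (hne : (Om q A).Nonempty)
    (hn : 0 < n) (p : ℂ[X]) (h : p.natDegree = 0 ∨ ∃ a : ℂ, A = a • 1) :
    ‖op (aeval A p)‖ = supOn q A p := by
  have := nontriv hn
  have key : ∀ a : ℂ, (∀ z ∈ Om q A, p.eval z = a) → aeval (op A) p = a • 1 → ‖op (aeval A p)‖ = supOn q A p := by
    intro a h1 h2
    have h3 : (fun z : ℂ => ‖p.eval z‖) '' Om q A = {‖a‖} := by
      obtain ⟨z0, hz0⟩ := hne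
      ext t
      simp only [Set.mem_image, Set.mem_singleton_iff]
      constructor
      · rintro ⟨z, hz, rfl⟩
        rw [h1 z hz]
      · rintro rfl
        exact ⟨z0, hz0, by rw [h1 z0 hz0]⟩
    rw [op_aeval, h2, supOn, h3, csSup_singleton, norm_smul, norm_one, mul_one]
  rcases h with h | ⟨a, rfl⟩
  · rw [eq_C_of_natDegree_eq_zero h] at key ⊢
    apply key (p.coeff 0)
    · intro z _
      rw [eval_C]
    · rw [aeval_C, Algebra.algebraMap_eq_smul_one]
  · apply key (p.eval a)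
    · intro z hz
      rw [Om_scalar a hq0 z hz]
    · rw [op_smul_one]
      have h1 : (a • (1 : EuclideanSpace ℂ (Fin n) →L[ℂ] EuclideanSpace ℂ (Fin n))) = algebraMap ℂ _ a :=
        (Algebra.algebraMap_eq_smul_one a).symm
      rw [h1, aeval_algebraMap_apply, Algebra.algebraMap_eq_smul_one]
      rfl

/-- from the shape of `p` to the disc -/
theorem Om_ball {n : ℕ} (A : Matrix (Fin n) (Fin n) ℂ) {q : ℂ} {p : ℂ[X]} {a γ : ℂ} {r M : ℝ} {D : ℕ} (hD : 1 ≤ D)
    (hr : 0 < r) (hγ : γ ≠ 0) (hp : p = C γ * (X - C a) ^ D) (hM : ‖γ‖ * r ^ D = M)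
    (h : ∀ z ∈ Om q A, ‖p.eval z‖ ≤ M) : Om q A ⊆ Metric.closedBall a r := by
  intro z hz
  have h1 := h z hz
  rw [hp, ← hM] at h1
  simp only [eval_mul, eval_C, eval_pow, eval_sub, eval_X, norm_mul, norm_pow] at h1
  have h2 : ‖z - a‖ ^ D ≤ r ^ D := le_of_mul_le_mul_left h1 (norm_pos_iff.mpr hγ)
  rw [mem_closedBall_iff_norm]
  exact (pow_le_pow_iff_left₀ (norm_nonneg _) hr.le (by omega)).mp h2

/-- the extremal examples give equality -/
theorem form_eq {n : ℕ} (A : Matrix (Fin n) (Fin n) ℂ) {q : ℂ} (hq0 : 0 < ‖q‖) (hq1 : ‖q‖ ≤ 1)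
    (hn : 2 ≤ n ∨ (n = 1 ∧ ‖q‖ = 1)) (p : ℂ[X]) {D : ℕ} {a γ : ℂ} {r : ℝ} (hD : 1 ≤ D) (hDq : D = 1 ∨ ‖q‖ = 1)
    (hr : 0 < r) (hp : p = C γ * (X - C a) ^ D) (hball : Om q A ⊆ Metric.closedBall a r)
    (hs : HasSummand A (a • 1 + (r : ℂ) • Crabb (c q) D)) : ‖op (aeval A p)‖ = c q * supOn q A p := by
  apply le_antisymm (bound A hq0 hq1 hn p)
  have hc := c_ge q
  have hne : (Om q A).Nonempty := (nonempty_iff A hq0 hq1).mpr hn
  have h1 := summand_lower A hr (by linarith) hD hs p hp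
  have h2 : (if D = 1 then c q else 2) = c q := by
    rcases hDq with h | h
    · rw [if_pos h]
    · rw [c_one h]
      split_ifs <;> rfl
  rw [h2] at h1
  have h3 : supOn q A p ≤ ‖γ‖ * r ^ D := by
    apply csSup_le (hne.image _)
    rintro _ ⟨z, hz, rfl⟩
    have h4 := mem_closedBall_iff_norm.mp (hball hz)
    rw [hp]
    simp only [eval_mul, eval_C, eval_pow, eval_sub, eval_X, norm_mul, norm_pow]
    gcongr
  calc c q * supOn q A p ≤ c q * (‖γ‖ * r ^ D) := by gcongr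
    _ = ‖γ‖ * r ^ D * c q := by ring
    _ ≤ _ := h1

/-- **Main theorem.** -/
theorem result (n : ℕ) (A : Matrix (Fin n) (Fin n) ℂ) (q : ℂ) (hq0 : 0 < ‖q‖) (hq1 : ‖q‖ ≤ 1)
    (hne : (Om q A).Nonempty) (p : ℂ[X]) :
    ‖op (aeval A p)‖ ≤ c q * supOn q A p ∧
    (‖op (aeval A p)‖ = c q * supOn q A p ↔
      (p = 0 ∨ ∃ a : ℂ, A = a • 1 ∧ p.eval a = 0) ∨
      (‖q‖ ≤ 4 / 5 ∧ (p.natDegree = 0 ∨ ∃ a : ℂ, A = a • 1)) ∨
      (4 / 5 ≤ ‖q‖ ∧ ∃ (D : ℕ) (a γ : ℂ) (r : ℝ), 1 ≤ D ∧ (D = 1 ∨ ‖q‖ = 1) ∧ γ ≠ 0 ∧ 0 < r ∧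
        p = C γ * (X - C a) ^ D ∧ Om q A ⊆ Metric.closedBall a r ∧
        HasSummand A (a • 1 + (r : ℂ) • Crabb (c q) D))) := by
  have hn := (nonempty_iff A hq0 hq1).mp hne
  have hn0 : 0 < n := by
    rcases hn with h | ⟨h, -⟩ <;> omega
  have := nontriv hn0
  have hq : q ≠ 0 := norm_pos_iff.mp hq0
  have hM : ∀ z ∈ Om q A, ‖p.eval z‖ ≤ supOn q A p := fun z hz =>
    le_csSup (bddAbove A p) (Set.mem_image_of_mem _ hz)
  have hM0 : 0 ≤ supOn q A p := by
    obtain ⟨z, hz⟩ := hne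
    exact (norm_nonneg _).trans (hM z hz)
  refine ⟨bound A hq0 hq1 hn p, fun heq => ?_, ?_⟩
  · rcases hM0.lt_or_eq with hpos | hzero
    · right
      have hnr := numRange_bd A hq0 hq1 hn p _ hM
      rcases lt_trichotomy ‖q‖ (4 / 5) with h | h | h
      · left
        refine ⟨h.le, ?_⟩
        by_contra hcon
        push Not at hcon
        obtain ⟨hd, hA⟩ := hcon
        have hn2 : 2 ≤ n := by
          rcases hn with h1 | ⟨-, h1⟩
          · exact h1
          · linarith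
        have h1 := case_small hq h (op A) (exists_orth hn2) (fun a ha => hA a ((scalar_iff A a).mp ha)) p
          (by omega) hpos hM
        rw [c_small h.le, one_mul, op_aeval] at heq
        linarith
      · by_cases htriv : p.natDegree = 0 ∨ ∃ a : ℂ, A = a • 1
        · exact Or.inl ⟨h.le, htriv⟩
        · right
          refine ⟨h.ge, ?_⟩
          push Not at htriv
          obtain ⟨hd, hA⟩ := htriv
          have hn2 : 2 ≤ n := by
            rcases hn with h1 | ⟨-, h1⟩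
            · exact h1
            · rw [h] at h1
              norm_num at h1
          rw [c_small h.le, one_mul, op_aeval] at heq
          obtain ⟨a, γ, r, v, hr, hγ, hp, hγr, hch⟩ := case_45 h (op A) (exists_orth hn2)
            (fun a ha => hA a ((scalar_iff A a).mp ha)) p (by omega) hpos hM heq
          refine ⟨1, a, γ, r, le_rfl, Or.inl rfl, hγ, hr, hp, Om_ball A le_rfl hr hγ hp hγr hM, ?_⟩
          rw [c_small h.le]
          exact chain_summand A hr one_pos hch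
      · right
        refine ⟨h.le, ?_⟩
        rcases hq1.lt_or_eq with hlt | hone
        · have hn2 : 2 ≤ n := by
            rcases hn with h1 | ⟨-, h1⟩
            · exact h1
            · linarith
          obtain ⟨hc1, hc2⟩ := c_large h hq1
          rw [op_aeval] at heq
          obtain ⟨a, γ, r, v, hr, hγ, hp, hγr, hch⟩ := case_q hq hlt (op A) (exists_orth hn2) p hc1 hc2 hpos hM heq
          exact ⟨1, a, γ, r, le_rfl, Or.inl rfl, hγ, hr, hp, Om_ball A le_rfl hr hγ hp hγr hM,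
            chain_summand A hr (by linarith) hch⟩
        · rw [op_aeval, c_one hone] at heq
          obtain ⟨D, a, γ, r, v, hD, hr, hγ, hp, hγr, hch⟩ := case_one (op A) p hpos hnr heq
          refine ⟨D, a, γ, r, hD, Or.inr hone, hγ, hr, hp, Om_ball A hD hr hγ hp hγr hM, ?_⟩
          rw [c_one hone]
          exact chain_summand A hr two_pos hch
    · left
      have h1 := (sup_eq_zero A hne p).mp hzero.symm
      have h2 : ∀ w ∈ numRange (op A), p.eval w = 0 := by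
        intro w hw
        have h3 := numRange_bd A hq0 hq1 hn p 0 (fun z hz => by rw [h1 z hz, norm_zero]) w hw
        exact norm_le_zero_iff.mp h3
      rcases vanish (op A) p h2 with h3 | ⟨a, ha, hpa⟩
      · exact Or.inl h3
      · exact Or.inr ⟨a, (scalar_iff A a).mp ha, hpa⟩
  · rintro (h | ⟨h, h'⟩ | ⟨-, D, a, γ, r, hD, hDq, -, hr, hp, hball, hs⟩)
    · have h1 : ∀ z ∈ Om q A, p.eval z = 0 := by
        rcases h with rfl | ⟨a, rfl, hpa⟩
        · intro z _
          exact eval_zero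
        · intro z hz
          rw [Om_scalar a hq0 z hz, hpa]
      have h2 := (sup_eq_zero A hne p).mpr h1
      have h3 := bound A hq0 hq1 hn p
      rw [h2, mul_zero] at h3 ⊢
      exact le_antisymm h3 (norm_nonneg _)
    · rw [c_small h, one_mul]
      exact trivial_eq A hq0 hne hn0 p h'
    · exact form_eq A hq0 hq1 hn p hD hDq hr hp hball hs

end Pool.Agent.Results.MP_16d611_an.EqualityCases
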