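import Pool.Agent.KS6_83.CZ.Final

/-!
# MP_16d611_an : matrix valued polynomials on the scaled `q`-numerical range

The inequality of Q1 holds for all matrices (`p` scalar), it holds with the same constant for row
and for column valued polynomials, and for matrices `A` of size `n ≤ 3` it holds for polynomials
with arbitrary rectangular matrix values.
-/

set_option autoImplicit false

namespace Pool.Agent.Results.MP_16d611_an.RowColumnBound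

open Polynomial

/-- The `q`-numerical range `W_q(A)`: the numbers `⟨A x, y⟩` with `‖x‖ = ‖y‖ = 1`, `⟨x, y⟩ = q`.
(Mathlib's `inner ℂ y x` is `∑ i, x i * conj (y i)`.) -/
def qNumRange {n : ℕ} (A : Matrix (Fin n) (Fin n) ℂ) (q : ℂ) : Set ℂ :=
  {w | ∃ x y : EuclideanSpace ℂ (Fin n), ‖x‖ = 1 ∧ ‖y‖ = 1 ∧ inner ℂ y x = q ∧
    inner ℂ y (Matrix.toEuclideanCLM (n := Fin n) (𝕜 := ℂ) A x) = w}

/-- The scaled `q`-numerical range `Ω_q = W_q(A) / q`. -/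
def scaledRange {n : ℕ} (A : Matrix (Fin n) (Fin n) ℂ) (q : ℂ) : Set ℂ :=
  {z | ∃ w ∈ qNumRange A q, z = w / q}

/-- The constant `c(q) = max (1, 2|q| / (1 + √(1 - |q|²)))`. -/
noncomputable def c (q : ℂ) : ℝ := max 1 (2 * ‖q‖ / (1 + Real.sqrt (1 - ‖q‖ ^ 2)))

/-- `F` is an `N × m` matrix of polynomials; at every point `z` of `Ω` the matrix `F(z)` has
operator norm at most `M`, with respect to the Euclidean norms of `ℂ^m` and `ℂ^N`. -/
def NormLeOn {N m : ℕ} (F : Fin N → Fin m → ℂ[X]) (Ω : Set ℂ) (M : ℝ) : Prop :=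
  ∀ z ∈ Ω, ∀ v : Fin m → ℂ,
    ∑ i, ‖∑ j, (F i j).eval z * v j‖ ^ 2 ≤ M ^ 2 * ∑ j, ‖v j‖ ^ 2

theorem Om_eq {n : ℕ} (A : Matrix (Fin n) (Fin n) ℂ) (q : ℂ) :
    Q169.CZ.Om (Matrix.toEuclideanCLM (n := Fin n) (𝕜 := ℂ) A) q = scaledRange A q := by
  ext z
  constructor
  · rintro ⟨x, y, hx, hy, hxy, rfl⟩
    exact ⟨_, ⟨x, y, hx, hy, hxy, rfl⟩, rfl⟩
  · rintro ⟨w, ⟨x, y, hx, hy, hxy, rfl⟩, rfl⟩
    exact ⟨x, y, hx, hy, hxy, rfl⟩

theorem bdd {n : ℕ} (A : Matrix (Fin n) (Fin n) ℂ) (q : ℂ) :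
    Bornology.IsBounded (scaledRange A q) := by
  set T := Matrix.toEuclideanCLM (n := Fin n) (𝕜 := ℂ) A with hT
  rw [isBounded_iff_forall_norm_le]
  refine ⟨‖T‖ / ‖q‖, ?_⟩
  rintro z ⟨w, ⟨x, y, hx, hy, -, rfl⟩, rfl⟩
  rw [norm_div]
  gcongr
  calc ‖inner ℂ y (T x)‖ ≤ ‖y‖ * ‖T x‖ := norm_inner_le_norm _ _
    _ ≤ 1 * (‖T‖ * 1) := by
        rw [hy]; gcongr
        have := T.le_opNorm x
        rwa [hx] at this
    _ = ‖T‖ := by ring

/-- For `|q| = 1` the numerical range lies in `Ω_q`. -/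
theorem unit_mem {n : ℕ} (A : Matrix (Fin n) (Fin n) ℂ) {q : ℂ} (hq : ‖q‖ = 1)
    {x : EuclideanSpace ℂ (Fin n)} (hx : ‖x‖ = 1) :
    inner ℂ x (Matrix.toEuclideanCLM (n := Fin n) (𝕜 := ℂ) A x) ∈ scaledRange A q := by
  have hq0 : q ≠ 0 := by intro h; rw [h] at hq; simp at hq
  refine ⟨_, ⟨x, (starRingEnd ℂ) q • x, hx, ?_, ?_, rfl⟩, ?_⟩
  · rw [norm_smul, RCLike.norm_conj, hq, hx, mul_one]
  · rw [inner_smul_left, Complex.conj_conj, Q169.CZ.inner_self_real, hx]; simp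
  · rw [inner_smul_left, Complex.conj_conj]
    field_simp

theorem nonempty_range {n : ℕ} (hn : 1 ≤ n) (A : Matrix (Fin n) (Fin n) ℂ) (q : ℂ)
    (hq0 : 0 < ‖q‖) (hq1 : ‖q‖ ≤ 1) (hnq : 2 ≤ n ∨ ‖q‖ = 1) : (scaledRange A q).Nonempty := by
  have : NeZero n := ⟨by omega⟩
  obtain ⟨x, hx⟩ := exists_norm_eq (EuclideanSpace ℂ (Fin n)) zero_le_one
  rcases hnq with h2 | h1
  · obtain ⟨z, hz, hzx⟩ := Q169.CZ.exists_orth (by simpa using h2) x
    have := Q169.CZ.mem_Om (Matrix.toEuclideanCLM (n := Fin n) (𝕜 := ℂ) A)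
      (norm_pos_iff.mp hq0) hq1 hx hz hzx 1 (by simp)
    rw [Om_eq] at this
    exact ⟨_, this⟩
  · exact ⟨_, unit_mem A h1 hx⟩

/-- dimension one -/
theorem aeval_one (A : Matrix (Fin 1) (Fin 1) ℂ) (p : ℂ[X]) (x : EuclideanSpace ℂ (Fin 1)) :
    Matrix.toEuclideanCLM (n := Fin 1) (𝕜 := ℂ) (aeval A p) x = p.eval (A 0 0) • x := by
  have hA : A = algebraMap ℂ (Matrix (Fin 1) (Fin 1) ℂ) (A 0 0) := by
    ext i j
    fin_cases i; fin_cases j
    simp [Matrix.algebraMap_matrix_apply]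
  have h1 : aeval A p = algebraMap ℂ (Matrix (Fin 1) (Fin 1) ℂ) (p.eval (A 0 0)) := by
    conv_lhs => rw [hA]
    rw [aeval_algebraMap_apply]
    simp
  rw [h1, Algebra.algebraMap_eq_smul_one, map_smul, map_one]
  rfl

theorem mat_case (n : ℕ) (hn : 1 ≤ n) (A : Matrix (Fin n) (Fin n) ℂ) (q : ℂ) (hq0 : 0 < ‖q‖)
    (hq1 : ‖q‖ ≤ 1) (hnq : 2 ≤ n ∨ ‖q‖ = 1) (N m : ℕ) (F : Fin N → Fin m → ℂ[X])
    (hNm : N = 1 ∨ m = 1 ∨ n ≤ 3) (M : ℝ) (hF : NormLeOn F (scaledRange A q) M)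
    (x : Fin m → EuclideanSpace ℂ (Fin n)) :
    ∑ i, ‖∑ j, Matrix.toEuclideanCLM (n := Fin n) (𝕜 := ℂ) (aeval A (F i j)) (x j)‖ ^ 2 ≤
      (c q * M) ^ 2 * ∑ j, ‖x j‖ ^ 2 := by
  have hq0' : q ≠ 0 := norm_pos_iff.mp hq0
  rcases Nat.lt_or_ge n 2 with h1 | h2
  · -- dimension one
    have hn1 : n = 1 := by omega
    subst hn1
    have hq : ‖q‖ = 1 := by
      rcases hnq with h | h
      · omega
      · exact h
    have hmem : A 0 0 ∈ scaledRange A q := by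
      have h3 := unit_mem A hq (x := EuclideanSpace.single 0 1) (by simp)
      have h4 : inner ℂ (EuclideanSpace.single (0 : Fin 1) (1 : ℂ))
          (Matrix.toEuclideanCLM (n := Fin 1) (𝕜 := ℂ) A (EuclideanSpace.single 0 1)) =
          A 0 0 := by
        have h5 := aeval_one A (X : ℂ[X]) (EuclideanSpace.single 0 1)
        rw [aeval_X, eval_X] at h5
        rw [h5, inner_smul_right, Q169.CZ.inner_self_real]
        simp
      rw [h4] at h3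
      exact h3
    simp only [aeval_one]
    refine (KS6_83.CZ.scalar_amp (fun i j => (F i j).eval (A 0 0)) (M ^ 2)
      (hF _ hmem) x).trans ?_
    have hc : 1 ≤ c q := le_max_left _ _
    have h6 : M ^ 2 ≤ (c q * M) ^ 2 := by
      rw [mul_pow]
      nlinarith [sq_nonneg M, mul_le_mul hc hc zero_le_one (by linarith)]
    gcongr
  · set φ := Matrix.toEuclideanCLM (n := Fin n) (𝕜 := ℂ) with hφ
    have hmat : ∀ p : ℂ[X], φ (Polynomial.aeval A p) = Polynomial.aeval (φ A) p := fun p =>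
      (Polynomial.aeval_algHom_apply (φ.toAlgEquiv.toAlgHom) A p).symm
    simp only [hmat]
    apply KS6_83.CZ.mat_bound (by simpa using h2) (φ A) hq0' hq1 N m F (by simpa using hNm) M
    rw [hφ, Om_eq]
    exact hF

/-- **Q1 and its version for matrix valued polynomials.** If the `N × m` matrix of polynomials `F`
satisfies `‖F(z)‖ ≤ M` for all `z ∈ Ω_q`, and `N = 1` or `m = 1` or `n ≤ 3`, then the operator
`F(A) : (ℂⁿ)^m → (ℂⁿ)^N` has norm at most `c(q) M`. (`N = m = 1` is Q1. For `n = 1` and `|q| < 1`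
the set `Ω_q` is empty.) -/
theorem result (n : ℕ) (hn : 1 ≤ n) (A : Matrix (Fin n) (Fin n) ℂ) (q : ℂ) (hq0 : 0 < ‖q‖)
    (hq1 : ‖q‖ ≤ 1) (hnq : 2 ≤ n ∨ ‖q‖ = 1) :
    (scaledRange A q).Nonempty ∧ Bornology.IsBounded (scaledRange A q) ∧
    ∀ (N m : ℕ) (F : Fin N → Fin m → ℂ[X]), (N = 1 ∨ m = 1 ∨ n ≤ 3) →
      ∀ M : ℝ, NormLeOn F (scaledRange A q) M → ∀ x : Fin m → EuclideanSpace ℂ (Fin n),
      ∑ i, ‖∑ j, Matrix.toEuclideanCLM (n := Fin n) (𝕜 := ℂ) (aeval A (F i j)) (x j)‖ ^ 2 ≤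
        (c q * M) ^ 2 * ∑ j, ‖x j‖ ^ 2 :=
  ⟨nonempty_range hn A q hq0 hq1 hnq, bdd A q, fun N m F hNm M hF x =>
    mat_case n hn A q hq0 hq1 hnq N m F hNm M hF x⟩

end Pool.Agent.Results.MP_16d611_an.RowColumnBound
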